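import Pool.Agent.H577.CN.Main

set_option autoImplicit false
set_option linter.unusedSectionVars false

/-! # The first case over imaginary quadratic fields: the roots of the sums -/

namespace Pool.Agent.H577.CP

open NumberField IsDedekindDomain Pool.Agent.W7.FH Pool.Agent.H577.UQ Pool.Agent.H577.SQ
  Pool.Agent.H577.CN ComplexConjugate Height

variable {K : Type} [Field K] [NumberField K]

/-- local and global data of a solution, in the first case -/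
structure D1 (t : Fin 3 → K) (p : ℕ) (u : Fin 3 → K) (κ : K) (j : Fin 3 → FinitePlace K → ℕ) :
    Prop where
  κ0 : κ ≠ 0
  u0 : ∀ i, u i ≠ 0
  S : ∀ i, Sm t i = κ * u i ^ p
  loc : ∀ i v, Lc v p (t (i + 1)) (t (i + 2)) (t i) (j i v)
  only : ∀ v i k, i ≠ k → j i v ≠ 0 → j k v = 0
  eq : ∀ v i k, v (u i) * (nrm v : ℝ) ^ j i v = v (u k) * (nrm v : ℝ) ^ j k v
  one : ∀ v i, j i v ≠ 0 → v (p : K) = 1

/-- at most one coordinate is small at a place -/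
lemma only_of (t : Fin 3 → K) (v : FinitePlace K) (i k : Fin 3) (hik : i ≠ k)
    (h1 : v (t i) < mx v (t 0) (t 1) (t 2))
    (h2 : v (t (k + 1)) = mx v (t 0) (t 1) (t 2) ∧ v (t (k + 2)) = mx v (t 0) (t 1) (t 2)) :
    False := by
  have h5 : i = k + 1 ∨ i = k + 2 := by
    clear * - hik
    revert i k
    decide
  rcases h5 with rfl | rfl
  · exact absurd h2.1 h1.ne
  · exact absurd h2.2 h1.ne

/-- the value of a ratio of two sums at a place, where both exponents exist -/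
lemma ratio_zpow {v : FinitePlace K} {p : ℕ} {x y : K} {m : ℝ} (hx : x ≠ 0) (hy : y ≠ 0)
    {a b : ℕ} (h1 : v x * ((nrm v : ℝ) ^ a) ^ p = m) (h2 : v y * ((nrm v : ℝ) ^ b) ^ p = m) :
    v (x / y) = (nrm v : ℝ) ^ ((p : ℤ) * ((b : ℤ) - a)) := by
  have hN1 : (0 : ℝ) < nrm v := by
    have := one_lt_nrm' v
    linarith
  have h3 : 0 < v y := FinitePlace.pos_iff.mpr hy
  rw [map_div₀, div_eq_iff h3.ne']
  have h4 : (nrm v : ℝ) ^ ((p : ℤ) * ((b : ℤ) - a)) =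
      ((nrm v : ℝ) ^ b) ^ p / ((nrm v : ℝ) ^ a) ^ p := by
    rw [mul_sub, zpow_sub₀ hN1.ne', mul_comm (p : ℤ), mul_comm (p : ℤ), zpow_mul, zpow_mul]
    simp only [zpow_natCast]
  rw [h4, div_mul_eq_mul_div, eq_div_iff (by positivity), h1, ← h2]
  ring

/-- elements all of whose values are `p`-th powers are `p`-th powers -/
lemma root_of_values (hK : Module.finrank ℚ K = 2) {σ τ : K →ₐ[ℚ] ℂ} {s : K ≃ₐ[ℚ] K}
    (hE : Emb K σ τ s) (hτ : ∀ x, τ x = conj (σ x)) {p : ℕ} (hp : p.Prime) (h5 : 5 ≤ p)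
    (hh : ¬ p ∣ classNumber K) {x : K} (hx : x ≠ 0)
    (h : ∀ v : FinitePlace K, ∃ k : ℤ, v x = (nrm v : ℝ) ^ (p * k)) :
    ∃ y : K, y ≠ 0 ∧ x = y ^ p := by
  have hτn : ∀ x, ‖τ x‖ = ‖σ x‖ := by
    intro x
    rw [hτ, Complex.norm_conj]
  obtain ⟨ε, y, hy, e1⟩ := exists_root hp hh hx h
  obtain ⟨e, he, e2⟩ := unit_root hK hp h5 hE.mem hE.norm hτn ε
  refine ⟨e * y, mul_ne_zero he hy, ?_⟩
  rw [e1, e2, mul_pow]

theorem d1_exists (hK : Module.finrank ℚ K = 2) {σ τ : K →ₐ[ℚ] ℂ} {s : K ≃ₐ[ℚ] K}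
    (hE : Emb K σ τ s) (hτ : ∀ x, τ x = conj (σ x)) {p : ℕ} (hp : p.Prime) (h5 : 5 ≤ p)
    (hh : ¬ p ∣ classNumber K) (t : Fin 3 → K) (ht : ∀ i, t i ≠ 0)
    (hF : (t 0) ^ p + (t 1) ^ p + (t 2) ^ p = 0)
    (hfirst : ∀ (v : FinitePlace K) i, v (Sm t i) < mx v (t 0) (t 1) (t 2) → v (p : K) = 1) :
    ∃ (u : Fin 3 → K) (κ : K) (j : Fin 3 → FinitePlace K → ℕ), D1 t p u κ j := by
  classical
  have hodd : Odd p := hp.odd_of_ne_two (by omega)
  have hFi := fermat_cyc t hF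
  have hS : ∀ i, Sm t i ≠ 0 := fun i => add_ne_zero_of_fermat hodd (ht i) (hFi i)
  have hloc : ∀ i (v : FinitePlace K), ∃ j : ℕ, Lc v p (t (i + 1)) (t (i + 2)) (t i) j := by
    intro i v
    refine lc_exists hK hp h5 (ht _) (ht _) (hFi i) v fun h1 => ?_
    rw [mx_cyc] at h1
    exact hfirst v i h1
  choose j hj using hloc
  have hmx0 : ∀ v : FinitePlace K, 0 < mx v (t 0) (t 1) (t 2) := fun v =>
    (FinitePlace.pos_iff.mpr (ht 0)).trans_le (le_mx1 v _ _ _)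
  have hN : ∀ v : FinitePlace K, (0 : ℝ) < nrm v := fun v => by
    have := one_lt_nrm' v
    linarith
  have hrel : ∀ i v, v (Sm t i) * ((nrm v : ℝ) ^ j i v) ^ p = mx v (t 0) (t 1) (t 2) := by
    intro i v
    have h1 := (hj i v).1
    rw [mx_cyc] at h1
    exact h1
  have hbig : ∀ i v, j i v ≠ 0 → v (t i) * (nrm v : ℝ) ^ j i v = mx v (t 0) (t 1) (t 2) ∧
      v (t (i + 1)) = mx v (t 0) (t 1) (t 2) ∧ v (t (i + 2)) = mx v (t 0) (t 1) (t 2) ∧
      v (Sm t i) < mx v (t 0) (t 1) (t 2) := by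
    intro i v h1
    have h2 := (hj i v).2.resolve_left h1
    rw [mx_cyc] at h2
    exact h2
  have hsmall : ∀ i v, j i v ≠ 0 → v (t i) < mx v (t 0) (t 1) (t 2) := by
    intro i v h1
    have h2 := (hbig i v h1).1
    have h3 : (1 : ℝ) < (nrm v : ℝ) ^ j i v := one_lt_pow₀ (one_lt_nrm' v) h1
    have h4 : 0 < v (t i) := FinitePlace.pos_iff.mpr (ht i)
    rw [← h2]
    nlinarith
  have honly : ∀ v i k, i ≠ k → j i v ≠ 0 → j k v = 0 := by
    intro v i k hik h1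
    by_contra h2
    exact only_of t v i k hik (hsmall i v h1) ⟨(hbig k v h2).2.1, (hbig k v h2).2.2.1⟩
  have hroot : ∀ i, ∃ u : K, u ≠ 0 ∧ Sm t i = Sm t 0 * u ^ p := by
    intro i
    obtain ⟨y, hy, e⟩ := root_of_values hK hE hτ hp h5 hh (div_ne_zero (hS i) (hS 0))
      fun v => ⟨_, ratio_zpow (hS i) (hS 0) (hrel i v) (hrel 0 v)⟩
    refine ⟨y, hy, ?_⟩
    rw [← e]
    have := hS 0
    field_simp
  choose u hu0 hu using hroot
  refine ⟨u, Sm t 0, j, hS 0, hu0, hu, hj, honly, ?_, fun v i h1 =>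
    hfirst v i (hbig i v h1).2.2.2⟩
  intro v i k
  have hN1 := hN v
  have hv0 : 0 < v (Sm t 0) := FinitePlace.pos_iff.mpr (hS 0)
  have h1 : ∀ i, v (Sm t 0) * (v (u i) * (nrm v : ℝ) ^ j i v) ^ p =
      mx v (t 0) (t 1) (t 2) := by
    intro i
    rw [← hrel i v, hu i, map_mul, map_pow, mul_pow]
    ring
  have h2 : (v (u i) * (nrm v : ℝ) ^ j i v) ^ p = (v (u k) * (nrm v : ℝ) ^ j k v) ^ p := by
    apply mul_left_cancel₀ hv0.ne'
    rw [h1, h1]
  have h3 := apply_nonneg v (u i)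
  have h4 := apply_nonneg v (u k)
  exact (pow_left_inj₀ (by positivity) (by positivity) hp.ne_zero).1 h2

section

variable {t : Fin 3 → K} {p : ℕ} {u : Fin 3 → K} {κ : K} {j : Fin 3 → FinitePlace K → ℕ}
  (hD : D1 t p u κ j) (ht : ∀ i, t i ≠ 0)

include hD ht

lemma D1.mx0 (v : FinitePlace K) : 0 < mx v (t 0) (t 1) (t 2) :=
  (FinitePlace.pos_iff.mpr (ht 0)).trans_le (le_mx1 v _ _ _)

lemma D1.small (i : Fin 3) (v : FinitePlace K) (h : j i v ≠ 0) :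
    v (t i) * (nrm v : ℝ) ^ j i v = mx v (t 0) (t 1) (t 2) := by
  have h2 := (hD.loc i v).2.resolve_left h
  rw [mx_cyc] at h2
  exact h2.1

lemma D1.rel (i : Fin 3) (v : FinitePlace K) :
    v κ * (v (u i) * (nrm v : ℝ) ^ j i v) ^ p = mx v (t 0) (t 1) (t 2) := by
  have h1 := (hD.loc i v).1
  rw [mx_cyc] at h1
  have h2 : v (t (i + 1) + t (i + 2)) = v κ * v (u i) ^ p := by
    have h3 := hD.S i
    unfold Sm at h3
    rw [h3, map_mul, map_pow]
  rw [h2] at h1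
  rw [← h1, mul_pow]
  ring

/-- the data of `CN`, if the residue degrees are good -/
lemma D1.toDat (h : ∀ v i, j i v ≠ 0 → Nat.Coprime p (nrm v - 1)) : Dat t p u κ j :=
  ⟨hD.κ0, hD.u0, hD.S, hD.loc, hD.only, hD.eq, fun v i h1 => ⟨hD.one v i h1, h v i h1⟩⟩

end

end Pool.Agent.H577.CP
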