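import Pool.Agent.H577.CP.First

set_option autoImplicit false
set_option linter.unusedSectionVars false

/-! # The first case: the height -/

namespace Pool.Agent.H577.CP

open NumberField IsDedekindDomain Pool.Agent.W7.FH Pool.Agent.H577.UQ Pool.Agent.H577.SQ
  Pool.Agent.H577.CN ComplexConjugate Height

variable {K : Type} [Field K] [NumberField K]

section

variable {t : Fin 3 → K} {p : ℕ} {u : Fin 3 → K} {κ : K} {j : Fin 3 → FinitePlace K → ℕ}
  (hD : D1 t p u κ j) (ht : ∀ i, t i ≠ 0)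

include hD ht

/-- either the sum of the roots is zero, or the height is large -/
theorem D1.delta (hK : Module.finrank ℚ K = 2) {σ τ : K →ₐ[ℚ] ℂ} {s : K ≃ₐ[ℚ] K}
    (hE : Emb K σ τ s) (hτ : ∀ x, τ x = conj (σ x)) (hp : p.Prime) (h5 : 5 ≤ p)
    (hU : ∀ v : FinitePlace K, v (p : K) < 1 → v (p : K) * nrm v = 1)
    (hF : (t 0) ^ p + (t 1) ^ p + (t 2) ^ p = 0) (hδ : u 0 + u 1 + u 2 ≠ 0) :
    ((p : ℝ) ^ 2 / 9) ^ p ≤ 4 * mulHeight ![t 0, t 1, t 2] := by
  classical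
  have hodd : Odd p := hp.odd_of_ne_two (by omega)
  have hFi := fermat_cyc t hF
  have hS : ∀ i, Sm t i ≠ 0 := fun i => add_ne_zero_of_fermat hodd (ht i) (hFi i)
  have hp0 : (p : K) ≠ 0 := by exact_mod_cast hp.ne_zero
  have hτn : ∀ x, ‖τ x‖ = ‖σ x‖ := by
    intro x
    rw [hτ, Complex.norm_conj]
  set T : Finset (FinitePlace K) :=
    (Finset.univ.biUnion fun i => (FinitePlace.hasFiniteMulSupport (ht i)).toFinset) ∪
    ((FinitePlace.hasFiniteMulSupport hD.κ0).toFinset ∪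
    ((Finset.univ.biUnion fun i => (FinitePlace.hasFiniteMulSupport (hD.u0 i)).toFinset) ∪
    ((FinitePlace.hasFiniteMulSupport hδ).toFinset ∪
    (FinitePlace.hasFiniteMulSupport hp0).toFinset))) with hT
  have hmem : ∀ (f : Fin 3 → K) (hf : ∀ i, f i ≠ 0) (v : FinitePlace K),
      v ∉ (Finset.univ.biUnion fun i => (FinitePlace.hasFiniteMulSupport (hf i)).toFinset) →
      ∀ i, v (f i) = 1 := by
    intro f hf v hv i
    by_contra h1
    apply hv
    rw [Finset.mem_biUnion]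
    exact ⟨i, Finset.mem_univ _, (Set.Finite.mem_toFinset _).2 h1⟩
  have hTt : ∀ v ∉ T, ∀ i, v (t i) = 1 := by
    intro v hv
    rw [hT, Finset.mem_union, not_or] at hv
    exact hmem t ht v hv.1
  have hTκ : ∀ v ∉ T, v κ = 1 := by
    intro v hv
    rw [hT, Finset.mem_union, not_or, Finset.mem_union, not_or] at hv
    by_contra h1
    exact hv.2.1 ((Set.Finite.mem_toFinset _).2 h1)
  have hTu : ∀ v ∉ T, ∀ i, v (u i) = 1 := by
    intro v hv
    rw [hT, Finset.mem_union, not_or, Finset.mem_union, not_or, Finset.mem_union, not_or] at hv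
    exact hmem u hD.u0 v hv.2.2.1
  have hTδ : ∀ v ∉ T, v (u 0 + u 1 + u 2) = 1 := by
    intro v hv
    rw [hT, Finset.mem_union, not_or, Finset.mem_union, not_or, Finset.mem_union, not_or,
      Finset.mem_union, not_or] at hv
    by_contra h1
    exact hv.2.2.2.1 ((Set.Finite.mem_toFinset _).2 h1)
  have hTp : ∀ v ∉ T, v (p : K) = 1 := by
    intro v hv
    rw [hT, Finset.mem_union, not_or, Finset.mem_union, not_or, Finset.mem_union, not_or,
      Finset.mem_union, not_or] at hv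
    by_contra h1
    exact hv.2.2.2.2 ((Set.Finite.mem_toFinset _).2 h1)
  have hN : ∀ v : FinitePlace K, (1 : ℝ) < nrm v := fun v => one_lt_nrm' v
  set R : ℝ := ∏ v ∈ T, (v (u 0) * (nrm v : ℝ) ^ j 0 v) with hR
  have hR0 : 0 < R := by
    apply Finset.prod_pos
    intro v _
    have h1 : 0 < v (u 0) := FinitePlace.pos_iff.mpr (hD.u0 0)
    have h2 : (0 : ℝ) < nrm v := by linarith [hN v]
    positivity
  have hsq : ∀ x : K, ((|Algebra.norm ℚ x| : ℚ) : ℝ) = ‖σ x‖ ^ 2 := by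
    intro x
    rw [hE.norm, hτn, sq]
  have hnpos : ∀ x : K, x ≠ 0 → 0 < ‖σ x‖ := fun x hx => norm_pos_iff.2 ((map_ne_zero σ).2 hx)
  -- the finite part of the height
  have hHf : Hf t * ‖σ κ‖ ^ 2 = R ^ p := by
    have h1 : Hf t = ∏ v ∈ T, mx v (t 0) (t 1) (t 2) := by
      unfold Hf
      apply finprod_eq_prod_of_mulSupport_subset
      intro v hv
      by_contra h2
      apply hv
      have h3 : v ∉ T := h2
      change max (max (v (t 0)) (v (t 1))) (v (t 2)) = 1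
      rw [hTt v h3, hTt v h3, hTt v h3]
      simp
    have h2 : ∏ v ∈ T, mx v (t 0) (t 1) (t 2) = (∏ v ∈ T, v κ) * R ^ p := by
      rw [hR, ← Finset.prod_pow, ← Finset.prod_mul_distrib]
      exact Finset.prod_congr rfl fun v _ => (hD.rel ht 0 v).symm
    rw [h1, h2, prodT hD.κ0 hTκ, hsq]
    have h3 := hnpos _ hD.κ0
    field_simp
  -- the height
  set M : ℝ := mx3 (fun i => ‖σ (t i)‖) with hM
  have hMpos : 0 < M := (hnpos _ (ht 0)).trans_le (le_mx3 (fun i => ‖σ (t i)‖) 0)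
  have hheight : mulHeight ![t 0, t 1, t 2] = M * M * Hf t := by
    rw [mulHeight_two σ τ hE.ne hE.mem t (ht 0)]
    have h1 : mx3 (fun i => ‖τ (t i)‖) = M := by
      rw [hM]
      congr 1
      funext i
      exact hτn _
    rw [h1]
  have hHf0 : 0 < Hf t := by
    have h3 := hnpos _ hD.κ0
    have h4 : 0 < Hf t * ‖σ κ‖ ^ 2 := by rw [hHf]; positivity
    exact pos_of_mul_pos_left h4 (by positivity)
  have hr4 : ∀ i, (R * ‖σ (u i)‖ ^ 2) ^ p ≤ 4 * mulHeight ![t 0, t 1, t 2] := by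
    intro i
    have h1 : ‖σ (Sm t i)‖ ≤ 2 * M := by
      change ‖σ (t (i + 1) + t (i + 2))‖ ≤ 2 * M
      rw [map_add]
      refine (norm_add_le _ _).trans ?_
      have h1 := le_mx3 (fun i => ‖σ (t i)‖) (i + 1)
      have h2 := le_mx3 (fun i => ‖σ (t i)‖) (i + 2)
      rw [← hM] at h1 h2
      linarith
    have h2 : (R * ‖σ (u i)‖ ^ 2) ^ p = ‖σ (Sm t i)‖ ^ 2 * Hf t := by
      rw [mul_pow, ← hHf, hD.S i, map_mul, map_pow, norm_mul, norm_pow]
      ring
    rw [h2, hheight]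
    calc ‖σ (Sm t i)‖ ^ 2 * Hf t ≤ (2 * M) ^ 2 * Hf t := by gcongr
      _ = 4 * (M * M * Hf t) := by ring
  -- the sum of the roots
  have hc : ∏ v ∈ T, (if v (p : K) < 1 then (nrm v : ℝ) else 1) = (p : ℝ) ^ 2 := by
    have h1 : (∏ v ∈ T, v (p : K)) * ∏ v ∈ T, (if v (p : K) < 1 then (nrm v : ℝ) else 1) = 1 := by
      rw [← Finset.prod_mul_distrib]
      apply Finset.prod_eq_one
      intro v _
      split_ifs with h2
      · exact hU v h2
      · rw [mul_one]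
        exact le_antisymm (natCast_le_one v p) (not_lt.1 h2)
    have h2 := norm_int hK (p : ℤ)
    have h3 : (((p : ℤ) : K)) = (p : K) := by push_cast; rfl
    rw [h3] at h2
    rw [prodT hp0 hTp, h2] at h1
    have h4 : (0 : ℝ) < p := by exact_mod_cast hp.pos
    push_cast at h1
    field_simp at h1
    exact h1
  have hrδ : (p : ℝ) ^ 2 ≤ R * ‖σ (u 0 + u 1 + u 2)‖ ^ 2 := by
    have h1 : (∏ v ∈ T, v (u 0 + u 1 + u 2)) *
        (∏ v ∈ T, if v (p : K) < 1 then (nrm v : ℝ) else 1) ≤ R := by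
      rw [← Finset.prod_mul_distrib, hR]
      apply Finset.prod_le_prod
      · intro v _
        have h1 := apply_nonneg v (u 0 + u 1 + u 2)
        have h2 : (0 : ℝ) < nrm v := by linarith [hN v]
        split_ifs
        · positivity
        · positivity
      · intro v _
        apply hD.loc_le ht hp hF v
        split_ifs with h2
        · exact Or.inr ⟨h2, rfl⟩
        · exact Or.inl rfl
    rw [hc, prodT hδ hTδ, hsq] at h1
    have h2 := hnpos _ hδ
    rw [inv_mul_le_iff₀ (by positivity)] at h1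
    linarith
  have htri : ‖σ (u 0 + u 1 + u 2)‖ ≤ ‖σ (u 0)‖ + ‖σ (u 1)‖ + ‖σ (u 2)‖ := by
    rw [map_add, map_add]
    exact norm_add₃_le
  have hmx : ∃ i, (p : ℝ) ^ 2 ≤ 9 * (R * ‖σ (u i)‖ ^ 2) := by
    obtain ⟨i, hi⟩ := mx3_eq fun i => ‖σ (u i)‖
    refine ⟨i, hrδ.trans ?_⟩
    have h1 : ‖σ (u 0 + u 1 + u 2)‖ ≤ 3 * ‖σ (u i)‖ := by
      have a0 := le_mx3 (fun i => ‖σ (u i)‖) 0
      have a1 := le_mx3 (fun i => ‖σ (u i)‖) 1
      have a2 := le_mx3 (fun i => ‖σ (u i)‖) 2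
      rw [hi] at a0 a1 a2
      linarith
    calc R * ‖σ (u 0 + u 1 + u 2)‖ ^ 2 ≤ R * (3 * ‖σ (u i)‖) ^ 2 := by gcongr
      _ = 9 * (R * ‖σ (u i)‖ ^ 2) := by ring
  obtain ⟨i, hi⟩ := hmx
  refine le_trans ?_ (hr4 i)
  apply pow_le_pow_left₀ (by positivity)
  rw [div_le_iff₀ (by norm_num)]
  linarith

end

/-- the first case -/
theorem first_case (hK : Module.finrank ℚ K = 2) {σ τ : K →ₐ[ℚ] ℂ} {s : K ≃ₐ[ℚ] K}
    (hE : Emb K σ τ s) (hτ : ∀ x, τ x = conj (σ x)) {p : ℕ} (hp : p.Prime) (h5 : 5 ≤ p)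
    (hh : ¬ p ∣ classNumber K) (hU : ∀ v : FinitePlace K, v (p : K) < 1 → v (p : K) * nrm v = 1)
    (t : Fin 3 → K) (ht : ∀ i, t i ≠ 0) (hF : (t 0) ^ p + (t 1) ^ p + (t 2) ^ p = 0)
    (hfirst : ∀ (v : FinitePlace K) i, v (Sm t i) < mx v (t 0) (t 1) (t 2) → v (p : K) = 1) :
    (t 0 + t 1 + t 2 = 0 ∧ (t 0) ^ 2 + t 0 * t 1 + (t 1) ^ 2 = 0) ∨
      ((p : ℝ) ^ 2 / 9) ^ p ≤ 4 * mulHeight ![t 0, t 1, t 2] := by
  obtain ⟨u, κ, j, hD⟩ := d1_exists hK hE hτ hp h5 hh t ht hF hfirst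
  by_cases hδ : u 0 + u 1 + u 2 = 0
  · exact Or.inl (hD.trivial ht hK hp h5 hF hδ)
  · exact Or.inr (hD.delta ht hK hE hτ hp h5 hU hF hδ)

end Pool.Agent.H577.CP
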