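import Pool.Agent.H577.CP.Base

set_option autoImplicit false
set_option linter.unusedSectionVars false

/-! # The first case: the sum of the roots -/

namespace Pool.Agent.H577.CP

open NumberField IsDedekindDomain Pool.Agent.W7.FH Pool.Agent.H577.UQ Pool.Agent.H577.SQ
  Pool.Agent.H577.CN ComplexConjugate Height

variable {K : Type} [Field K] [NumberField K]

section

variable {t : Fin 3 → K} {p : ℕ} {u : Fin 3 → K} {κ : K} {j : Fin 3 → FinitePlace K → ℕ}
  (hD : D1 t p u κ j) (ht : ∀ i, t i ≠ 0)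

include hD ht

/-- the places above `p` -/
lemma D1.above (hp : p.Prime) (hF : (t 0) ^ p + (t 1) ^ p + (t 2) ^ p = 0)
    (v : FinitePlace K) (hv : v (p : K) < 1) : v (u 0 + u 1 + u 2) < v (u 0) := by
  have hj : ∀ i, j i v = 0 := by
    intro i
    by_contra h1
    exact hv.ne (hD.one v i h1)
  have hu : ∀ i, v (u i) = v (u 0) := by
    intro i
    have h1 := hD.eq v i 0
    rwa [hj, hj, pow_zero, mul_one, mul_one] at h1
  have hr := hD.rel ht 0 v
  rw [hj, pow_zero, mul_one] at hr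
  set m := mx v (t 0) (t 1) (t 2) with hm
  have hm0 : 0 < m := hD.mx0 ht v
  have hg : v (κ * u 0 ^ p) = m := by rw [map_mul, map_pow, hr]
  have hg0 : κ * u 0 ^ p ≠ 0 := mul_ne_zero hD.κ0 (pow_ne_zero _ (hD.u0 0))
  have h1 := frob v hp hv (a := t 0) (b := t 1) (c := t 2) hg0
    (by rw [hg]; exact le_mx1 v _ _ _) (by rw [hg]; exact le_mx2 v _ _ _)
    (by rw [hg]; exact le_mx3 v _ _ _)
  rw [hF, sub_zero, hg, map_pow] at h1
  have h2 : v (t 0 + t 1 + t 2) < m := lt_of_pow_lt_pow_left₀ p hm0.le h1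
  have h3 : κ * (u 0 ^ p + u 1 ^ p + u 2 ^ p) = 2 * (t 0 + t 1 + t 2) := by
    rw [← sum_Sm, hD.S, hD.S, hD.S]
    ring
  have h4 : v κ * v (u 0 ^ p + u 1 ^ p + u 2 ^ p) < v κ * v (u 0) ^ p := by
    rw [← map_mul, h3, hr, map_mul]
    have h5 : v (2 : K) ≤ 1 := by exact_mod_cast natCast_le_one v 2
    have h6 := apply_nonneg v (t 0 + t 1 + t 2)
    calc v (2 : K) * v (t 0 + t 1 + t 2) ≤ 1 * v (t 0 + t 1 + t 2) := by gcongr
      _ < m := by rw [one_mul]; exact h2
  have h5 : v (u 0 ^ p + u 1 ^ p + u 2 ^ p) < v (u 0) ^ p :=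
    lt_of_mul_lt_mul_left h4 (apply_nonneg _ _)
  have h6 := frob v hp hv (a := u 0) (b := u 1) (c := u 2) (hD.u0 0) le_rfl (hu 1).le (hu 2).le
  have h7 : v ((u 0 + u 1 + u 2) ^ p) < v (u 0) ^ p := by
    have e : (u 0 + u 1 + u 2) ^ p = ((u 0 + u 1 + u 2) ^ p - (u 0 ^ p + u 1 ^ p + u 2 ^ p)) +
        (u 0 ^ p + u 1 ^ p + u 2 ^ p) := by ring
    rw [e]
    exact v_add_lt v h6 h5
  rw [map_pow] at h7
  exact lt_of_pow_lt_pow_left₀ p (apply_nonneg _ _) h7

/-- the local inequality, at the places above `p` -/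
lemma D1.loc_le (hp : p.Prime) (hF : (t 0) ^ p + (t 1) ^ p + (t 2) ^ p = 0)
    (v : FinitePlace K) (c : ℝ) (hc : c = 1 ∨ v (p : K) < 1 ∧ c = nrm v) :
    v (u 0 + u 1 + u 2) * c ≤ v (u 0) * (nrm v : ℝ) ^ j 0 v := by
  have hN := one_lt_nrm' v
  rcases hc with rfl | ⟨h1, rfl⟩
  · rw [mul_one]
    have h0 : ∀ i, v (u i) ≤ v (u 0) * (nrm v : ℝ) ^ j 0 v := by
      intro i
      rw [← hD.eq v i 0]
      apply le_mul_of_one_le_right (apply_nonneg _ _)
      exact one_le_pow₀ hN.le
    exact v_add_le v (v_add_le v (h0 0) (h0 1)) (h0 2)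
  · have hj : ∀ i, j i v = 0 := by
      intro i
      by_contra h3
      exact h1.ne (hD.one v i h3)
    have h2 := hD.above ht hp hF v h1
    have hu0 : 0 < v (u 0) := FinitePlace.pos_iff.mpr (hD.u0 0)
    have h3 : v ((u 0 + u 1 + u 2) / u 0) < 1 := by
      rw [map_div₀, div_lt_one hu0]
      exact h2
    have h4 := le_inv_nrm v h3
    rw [map_div₀, div_le_iff₀ hu0] at h4
    rw [hj, pow_zero, mul_one]
    calc v (u 0 + u 1 + u 2) * (nrm v : ℝ) ≤ (((nrm v : ℕ) : ℝ)⁻¹ * v (u 0)) * nrm v := by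
          gcongr
      _ = v (u 0) := by field_simp

/-- the sum of two roots, at a place dividing the third -/
lemma D1.pairs (hp : p.Prime) (hodd : Odd p) (i : Fin 3) (v : FinitePlace K)
    (hco : Nat.Coprime p (nrm v - 1)) (h : j i v ≠ 0) :
    v (u (i + 1) + u (i + 2)) ≤ v (u i) ∧
      (v (2 : K) < 1 → v (u (i + 1) + u (i + 2)) < v (u i)) := by
  have hN := one_lt_nrm' v
  have hNj : (1 : ℝ) < (nrm v : ℝ) ^ j i v := one_lt_pow₀ hN h
  have hm := hD.mx0 ht v
  set m := mx v (t 0) (t 1) (t 2) with hmdef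
  have hv1 := hD.one v i h
  have j1 := hD.only v i (i + 1) (n1 i) h
  have j2 := hD.only v i (i + 2) (n2 i) h
  have e1 := hD.eq v i (i + 1)
  have e2 := hD.eq v i (i + 2)
  rw [j1, pow_zero, mul_one] at e1
  rw [j2, pow_zero, mul_one] at e2
  have hyz : v (u (i + 1)) = v (u (i + 2)) := by rw [← e1, ← e2]
  have hr2 := hD.rel ht (i + 2) v
  rw [j2, pow_zero, mul_one] at hr2
  have hsum : κ * u (i + 1) ^ p + κ * u (i + 2) ^ p = Sm t i + 2 * t i := by
    rw [← hD.S, ← hD.S]
    unfold Sm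
    rw [f11, f12, f21, f22]
    ring
  -- the sizes
  have hti := hD.small ht i v h
  have hvSi : v (Sm t i) * ((nrm v : ℝ) ^ j i v) ^ p = m := by
    have h1 := (hD.loc i v).1
    rw [mx_cyc] at h1
    exact h1
  have hSlt : v (Sm t i) * (nrm v : ℝ) ^ j i v < m := by
    have h1 : (nrm v : ℝ) ^ j i v < ((nrm v : ℝ) ^ j i v) ^ p := by
      calc (nrm v : ℝ) ^ j i v = ((nrm v : ℝ) ^ j i v) ^ 1 := (pow_one _).symm
        _ < _ := pow_lt_pow_right₀ hNj hp.one_lt
    have h2 : 0 < v (Sm t i) := by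
      by_contra h3
      have h4 : v (Sm t i) = 0 := le_antisymm (not_lt.1 h3) (apply_nonneg _ _)
      rw [h4, zero_mul] at hvSi
      exact hm.ne hvSi
    calc _ < v (Sm t i) * ((nrm v : ℝ) ^ j i v) ^ p := by gcongr
      _ = m := hvSi
  have h2t : v (2 * t i) * (nrm v : ℝ) ^ j i v = v (2 : K) * m := by
    rw [map_mul, mul_assoc, hti]
  have hle : v (Sm t i + 2 * t i) * (nrm v : ℝ) ^ j i v ≤ m := by
    rw [← le_div_iff₀ (by positivity)]
    apply v_add_le
    · rw [le_div_iff₀ (by positivity)]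
      exact hSlt.le
    · rw [le_div_iff₀ (by positivity), h2t]
      have : v (2 : K) ≤ 1 := by exact_mod_cast natCast_le_one v 2
      calc v (2 : K) * m ≤ 1 * m := by gcongr
        _ = m := one_mul _
  have hlt : v (2 : K) < 1 → v (Sm t i + 2 * t i) * (nrm v : ℝ) ^ j i v < m := by
    intro h21
    rw [← lt_div_iff₀ (by positivity)]
    apply v_add_lt
    · rw [lt_div_iff₀ (by positivity)]
      exact hSlt
    · rw [lt_div_iff₀ (by positivity), h2t]
      calc v (2 : K) * m < 1 * m := by gcongr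
        _ = m := one_mul _
  have hSS : v (Sm t i + 2 * t i) < m := by
    have h1 := apply_nonneg v (Sm t i + 2 * t i)
    rcases h1.lt_or_eq with h2 | h2
    · calc v (Sm t i + 2 * t i) = v (Sm t i + 2 * t i) * 1 := (mul_one _).symm
        _ < v (Sm t i + 2 * t i) * (nrm v : ℝ) ^ j i v := by gcongr
        _ ≤ m := hle
    · rw [← h2]
      exact hm
  have key := pairS v hp hodd hv1 hco hD.κ0 (hD.u0 (i + 2)) hyz hsum (by rw [hr2]; exact hSS)
  rw [hr2] at key
  have hui : 0 < v (u i) := FinitePlace.pos_iff.mpr (hD.u0 i)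
  have huz : 0 < v (u (i + 2)) := FinitePlace.pos_iff.mpr (hD.u0 _)
  have hpos : 0 < m * (nrm v : ℝ) ^ j i v := by positivity
  constructor
  · have h1 : v (u (i + 1) + u (i + 2)) * (m * (nrm v : ℝ) ^ j i v) ≤
        v (u i) * (m * (nrm v : ℝ) ^ j i v) := by
      calc _ = (v (u (i + 1) + u (i + 2)) * m) * (nrm v : ℝ) ^ j i v := by ring
        _ = v (u (i + 2)) * (v (Sm t i + 2 * t i) * (nrm v : ℝ) ^ j i v) := by rw [key]; ring
        _ ≤ v (u (i + 2)) * m := by gcongr
        _ = (v (u i) * (nrm v : ℝ) ^ j i v) * m := by rw [e2]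
        _ = _ := by ring
    exact le_of_mul_le_mul_right h1 hpos
  · intro h21
    have h0 := hlt h21
    have h1 : v (u (i + 1) + u (i + 2)) * (m * (nrm v : ℝ) ^ j i v) <
        v (u i) * (m * (nrm v : ℝ) ^ j i v) := by
      calc _ = (v (u (i + 1) + u (i + 2)) * m) * (nrm v : ℝ) ^ j i v := by ring
        _ = v (u (i + 2)) * (v (Sm t i + 2 * t i) * (nrm v : ℝ) ^ j i v) := by rw [key]; ring
        _ < v (u (i + 2)) * m := by gcongr
        _ = (v (u i) * (nrm v : ℝ) ^ j i v) * m := by rw [e2]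
        _ = _ := by ring
    exact lt_of_mul_lt_mul_right h1 hpos.le

/-- if the sum of the roots is zero, the solution is trivial -/
theorem D1.trivial (hK : Module.finrank ℚ K = 2) (hp : p.Prime) (h5 : 5 ≤ p)
    (hF : (t 0) ^ p + (t 1) ^ p + (t 2) ^ p = 0) (hδ : u 0 + u 1 + u 2 = 0) :
    t 0 + t 1 + t 2 = 0 ∧ (t 0) ^ 2 + t 0 * t 1 + (t 1) ^ 2 = 0 := by
  have hodd : Odd p := hp.odd_of_ne_two (by omega)
  have h3 : p % 3 ≠ 0 := by
    intro h0
    have := (Nat.prime_dvd_prime_iff_eq Nat.prime_three hp).1 (Nat.dvd_of_mod_eq_zero h0)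
    omega
  obtain ⟨v, hv2⟩ := exists_place hK Nat.prime_two
  have h2 : v (2 : K) < 1 := by exact_mod_cast hv2
  have hj : ∀ i, j i v = 0 := by
    intro i
    by_contra h1
    have hco : Nat.Coprime p (nrm v - 1) := by
      rw [Nat.Prime.coprime_iff_not_dvd hp]
      intro h6
      rcases nrm_two hK h2 with h7 | ⟨h7, -⟩ <;> rw [h7] at h6
      · have := Nat.le_of_dvd (by norm_num) h6
        omega
      · have := Nat.le_of_dvd (by norm_num) h6
        omega
    have h3 := (hD.pairs ht hp hodd i v hco h1).2 h2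
    have h4 := sum_cyc u i
    rw [hδ] at h4
    have h5 : u (i + 1) + u (i + 2) = -u i := by linear_combination -h4
    rw [h5, map_neg_eq_map] at h3
    exact lt_irrefl _ h3
  have hu : ∀ i, v (u i) = v (u 0) := by
    intro i
    have h1 := hD.eq v i 0
    rwa [hj, hj, pow_zero, mul_one, mul_one] at h1
  have hu0 := hD.u0 0
  have hvu0 : 0 < v (u 0) := FinitePlace.pos_iff.mpr hu0
  set x : K := u 1 / u 0 with hx
  have hx1 : v x = 1 := by rw [hx, map_div₀, hu 1, div_self hvu0.ne']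
  have hx' : -1 - x = u 2 / u 0 := by
    rw [hx]
    field_simp
    linear_combination -hδ
  have hx1' : v (-1 - x) = 1 := by rw [hx', map_div₀, hu 2, div_self hvu0.ne']
  have e1 : u 1 = x * u 0 := by
    rw [hx]
    field_simp
  have e2 : u 2 = (-1 - x) * u 0 := by
    rw [hx']
    field_simp
  have hsum : 2 * (t 0 + t 1 + t 2) = κ * u 0 ^ p * P x p := by
    rw [← sum_Sm, hD.S, hD.S, hD.S, e1, e2]
    unfold P
    rw [mul_pow, mul_pow]
    ring
  have eS0 : t 1 + t 2 = κ * u 0 ^ p := hD.S 0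
  have eS1 : t 2 + t 0 = κ * u 0 ^ p * x ^ p := by
    have h1 : t 2 + t 0 = κ * u 1 ^ p := hD.S 1
    rw [h1, e1, mul_pow]
    ring
  have eS2 : t 0 + t 1 = κ * u 0 ^ p * (-1 - x) ^ p := by
    have h1 : t 0 + t 1 = κ * u 2 ^ p := hD.S 2
    rw [h1, e2, mul_pow]
    ring
  have hg0 : κ * u 0 ^ p ≠ 0 := mul_ne_zero hD.κ0 (pow_ne_zero _ hu0)
  -- the residue field has four elements
  rcases nrm_two hK h2 with hN | ⟨hN, hdisc⟩
  · exfalso
    have h6 : ∀ z : K, v z = 1 → v (z - 1) < 1 := by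
      intro z hz
      have h7 := pow_unit v hz
      rwa [hN, show 2 - 1 = 1 by norm_num, pow_one] at h7
    have h7 := h6 x hx1
    have h8 := h6 (-1 - x) hx1'
    have h9 : v (3 : K) < 1 := by
      have e : (3 : K) = -((x - 1) + ((-1 - x) - 1)) := by ring
      rw [e, map_neg_eq_map]
      exact v_add_lt v h7 h8
    have h10 := odd_one v h2 (n := 3) (by decide)
    push_cast at h10
    rw [h10] at h9
    exact lt_irrefl _ h9
  have h4 : ∀ z : K, v z = 1 → v (z ^ 3 - 1) < 1 := by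
    intro z hz
    have h7 := pow_unit v hz
    rwa [hN, show 4 - 1 = 3 by norm_num] at h7
  have hη : v (x ^ 2 + x + 1) < 1 := by
    have h6 : v (x - 1) = 1 := by
      have h7 : v (x - 1) ≤ 1 := v_sub_le v hx1.le (by rw [map_one])
      rcases h7.lt_or_eq with h8 | h8
      · exfalso
        have h9 : v (-1 - x) < 1 := by
          have e : -1 - x = -((x - 1) + 2) := by ring
          rw [e, map_neg_eq_map]
          exact v_add_lt v h8 h2
        rw [hx1'] at h9
        exact lt_irrefl _ h9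
      · exact h8
    have h7 := h4 x hx1
    have e : x ^ 3 - 1 = (x - 1) * (x ^ 2 + x + 1) := by ring
    rwa [e, map_mul, h6, one_mul] at h7
  by_cases hη0 : x ^ 2 + x + 1 = 0
  · -- the trivial solutions
    have hx3 : x ^ 3 = 1 := by linear_combination (x - 1) * hη0
    have hxx : -1 - x = x ^ 2 := by linear_combination -hη0
    obtain ⟨l, hl⟩ : ∃ l, l = p / 3 := ⟨_, rfl⟩
    have hkey : 1 + x ^ p + (x ^ p) ^ 2 = 0 := by
      rcases (show p = 3 * l + 1 ∨ p = 3 * l + 2 by omega) with h6 | h6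
      · have e : x ^ p = x := by rw [h6, pow_add, pow_mul, hx3, one_pow, pow_one, one_mul]
        rw [e]
        linear_combination hη0
      · have e : x ^ p = x ^ 2 := by rw [h6, pow_add, pow_mul, hx3, one_pow, one_mul]
        rw [e]
        linear_combination x * hx3 + hη0
    have hP0 : P x p = 0 := by
      unfold P
      rw [hxx, ← pow_mul, mul_comm 2 p, pow_mul]
      exact hkey
    rw [hP0, mul_zero] at hsum
    have hs0 : t 0 + t 1 + t 2 = 0 := by
      rcases mul_eq_zero.1 hsum with h6 | h6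
      · exact absurd h6 two_ne_zero
      · exact h6
    refine ⟨hs0, ?_⟩
    have e0 : t 0 = -(κ * u 0 ^ p) := by linear_combination hs0 - eS0
    have e1' : t 1 = -(κ * u 0 ^ p * x ^ p) := by linear_combination hs0 - eS1
    rw [e0, e1']
    linear_combination (κ * u 0 ^ p) ^ 2 * hkey
  · exfalso
    have hA : At2 v x := ⟨h2, hdisc, hη0, hη, hx1.le⟩
    set g := κ * u 0 ^ p with hg
    refine no_sol hA h4 hp h5 (s := (t 0 + t 1 + t 2) / g) ?_ ?_
    · rw [← mul_div_assoc, hsum]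
      field_simp
    · have a0 : (t 0 + t 1 + t 2) / g - 1 = t 0 / g := by
        field_simp
        linear_combination eS0
      have a1 : (t 0 + t 1 + t 2) / g - x ^ p = t 1 / g := by
        field_simp
        linear_combination eS1
      have a2 : (t 0 + t 1 + t 2) / g - (-1 - x) ^ p = t 2 / g := by
        field_simp
        linear_combination eS2
      rw [a0, a1, a2, div_pow, div_pow, div_pow, ← add_div, ← add_div, hF, zero_div]

end

end Pool.Agent.H577.CP
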