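import Pool.Agent.H577.CP.Second

set_option autoImplicit false
set_option linter.unusedSectionVars false

/-! # Large heights -/

namespace Pool.Agent.H577.CP

open NumberField IsDedekindDomain Pool.Agent.W7.FH Pool.Agent.H577.UQ Pool.Agent.H577.SQ
  Pool.Agent.H577.CN ComplexConjugate Height

variable {K : Type} [Field K] [NumberField K]

/-- unramified primes -/
lemma unram {p : ℕ} (hp0 : p ≠ 0) (h : ∀ P : Ideal (𝓞 K), P.IsPrime → (p : 𝓞 K) ∉ P ^ 2)
    (v : FinitePlace K) (hv : v (p : K) < 1) : v (p : K) * nrm v = 1 := by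
  classical
  have ha : ((p : ℕ) : 𝓞 K) ≠ 0 := by exact_mod_cast hp0
  have h1 := val_int v ha
  set c : ℕ := (Associates.mk v.maximalIdeal.asIdeal).count
    (Associates.mk (Ideal.span {((p : ℕ) : 𝓞 K)} : Ideal (𝓞 K))).factors with hc
  have h2 : (((p : ℕ) : 𝓞 K) : K) = (p : K) := by push_cast; rfl
  rw [h2] at h1
  have hN := one_lt_nrm' v
  have h3 : c < 2 := by
    by_contra h4
    apply h v.maximalIdeal.asIdeal v.maximalIdeal.isPrime
    rw [← HeightOneSpectrum.intValuation_le_pow_iff_mem, v.maximalIdeal.intValuation_if_neg ha,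
      WithZero.exp_le_exp]
    push_cast
    omega
  have h4 : c ≠ 0 := by
    intro h5
    rw [h5] at h1
    simp only [Nat.cast_zero, neg_zero, zpow_zero] at h1
    exact hv.ne h1
  have h5 : c = 1 := by omega
  rw [h1, h5]
  simp only [Nat.cast_one, zpow_neg, zpow_one]
  exact inv_mul_cancel₀ (by positivity)

lemma nine {p : ℕ} (hp : 1 ≤ p) : ((p : ℝ) ^ 2 / 9) ^ p ≤ (p : ℝ) ^ (2 * p - 1) := by
  have hp0 : (0 : ℝ) < p := by exact_mod_cast hp
  have h1 : (p : ℝ) ≤ 9 ^ p := by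
    have h2 : p < 9 ^ p := Nat.lt_pow_self (by norm_num)
    exact_mod_cast h2.le
  rw [div_pow, ← pow_mul, div_le_iff₀ (by positivity)]
  obtain ⟨q, hq⟩ : ∃ q, 2 * p = q + 1 := ⟨2 * p - 1, by omega⟩
  have hq' : 2 * p - 1 = q := by omega
  rw [hq', hq, pow_succ]
  gcongr

/-- the height of a solution, in terms of a sum -/
lemma height_sum (hK : Module.finrank ℚ K = 2) {p : ℕ} (hodd : Odd p) (t : Fin 3 → K)
    (ht : ∀ i, t i ≠ 0) (hF : (t 0) ^ p + (t 1) ^ p + (t 2) ^ p = 0) (i : Fin 3)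
    (v : FinitePlace K) {Q : ℝ} (hQ : 0 ≤ Q)
    (h : Q * v (Sm t i) ≤ mx v (t 0) (t 1) (t 2)) : Q ≤ 4 * mulHeight ![t 0, t 1, t 2] := by
  have hFi := fermat_cyc t hF i
  have h1 : Q * v (t (i + 1) + t (i + 2)) ≤
      max (max (v (t (i + 1))) (v (t (i + 2)))) (v (t i)) := by
    change Q * v (Sm t i) ≤ mx v (t (i + 1)) (t (i + 2)) (t i)
    rw [mx_cyc]
    exact h
  have h2 := height_ge (ht _) (ht _) (ht _) (add_ne_zero_of_fermat hodd (ht i) hFi) v hQ h1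
  rw [hK, mulHeight_cyc] at h2
  norm_num at h2
  exact h2

theorem main (hK : Module.finrank ℚ K = 2) {σ τ : K →ₐ[ℚ] ℂ} {s : K ≃ₐ[ℚ] K}
    (hE : Emb K σ τ s) (hτ : ∀ x, τ x = conj (σ x)) {p : ℕ} (hp : p.Prime) (h5 : 5 ≤ p)
    (hh : ¬ p ∣ classNumber K) (hU : ∀ v : FinitePlace K, v (p : K) < 1 → v (p : K) * nrm v = 1)
    (t : Fin 3 → K) (ht : ∀ i, t i ≠ 0) (hF : (t 0) ^ p + (t 1) ^ p + (t 2) ^ p = 0) :
    (t 0 + t 1 + t 2 = 0 ∧ (t 0) ^ 2 + t 0 * t 1 + (t 1) ^ 2 = 0) ∨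
      ((p : ℝ) ^ 2 / 9) ^ p ≤ 4 * mulHeight ![t 0, t 1, t 2] ∨
      ((p : ℝ) ^ (p - 1) ≤ 4 * mulHeight ![t 0, t 1, t 2] ∧
        ∃ (v w : FinitePlace K) (i k : Fin 3), v ≠ w ∧ i ≠ k ∧ v (p : K) < 1 ∧ w (p : K) < 1 ∧
          v (t i) < mx v (t 0) (t 1) (t 2) ∧ w (t k) < mx w (t 0) (t 1) (t 2)) := by
  have hodd : Odd p := hp.odd_of_ne_two (by omega)
  by_cases hfirst : ∀ (v : FinitePlace K) i, v (Sm t i) < mx v (t 0) (t 1) (t 2) → v (p : K) = 1
  · rcases first_case hK hE hτ hp h5 hh hU t ht hF hfirst with h | h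
    · exact Or.inl h
    · exact Or.inr (Or.inl h)
  right
  push Not at hfirst
  obtain ⟨v, i, hlt, hv⟩ := hfirst
  have hvp : v (p : K) < 1 := lt_of_le_of_ne (natCast_le_one v p) hv
  by_cases hone : ∀ (w : FinitePlace K) k, w (Sm t k) < mx w (t 0) (t 1) (t 2) →
      w (p : K) < 1 → k = i
  · left
    have h1 := second_case hK hE hτ hp h5 hh hU t ht hF i v hvp hlt hone
    exact (nine (by omega)).trans (height_sum hK hodd t ht hF i v (by positivity) h1)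
  · right
    push Not at hone
    obtain ⟨w, k, hltw, hwp, hki⟩ := hone
    obtain ⟨a1, a2, a3, a4⟩ := second_gen hK hp h5 hU t ht hF i v hvp hlt
    obtain ⟨b1, b2, b3, b4⟩ := second_gen hK hp h5 hU t ht hF k w hwp hltw
    refine ⟨height_sum hK hodd t ht hF i v (by positivity) a4, v, w, i, k, ?_, hki.symm, hvp, hwp,
      a1, b1⟩
    rintro rfl
    exact only_of t v i k hki.symm a1 ⟨b2, b3⟩

end Pool.Agent.H577.CP
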