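import Pool.Agent.H577.CP.Delta

set_option autoImplicit false
set_option linter.unusedSectionVars false

/-! # The second case -/

namespace Pool.Agent.H577.CP

open NumberField IsDedekindDomain Pool.Agent.W7.FH Pool.Agent.H577.UQ Pool.Agent.H577.SQ
  Pool.Agent.H577.CN ComplexConjugate Height

variable {K : Type} [Field K] [NumberField K]

/-- the exponent of a full sum is zero -/
lemma lc_any (hK : Module.finrank ℚ K = 2) {p : ℕ} (hp : p.Prime) (h5 : 5 ≤ p)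
    (t : Fin 3 → K) (ht : ∀ i, t i ≠ 0) (hF : (t 0) ^ p + (t 1) ^ p + (t 2) ^ p = 0)
    (k : Fin 3) (v : FinitePlace K)
    (hv : v (Sm t k) < mx v (t 0) (t 1) (t 2) → v (p : K) = 1) :
    ∃ j : ℕ, v (Sm t k) * ((nrm v : ℝ) ^ j) ^ p = mx v (t 0) (t 1) (t 2) := by
  have hFi := fermat_cyc t hF
  obtain ⟨j, hj⟩ := lc_exists hK hp h5 (ht _) (ht _) (hFi k) v fun h1 => by
    rw [mx_cyc] at h1
    exact hv h1
  refine ⟨j, ?_⟩
  have h1 := hj.1
  rw [mx_cyc] at h1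
  exact h1

/-- the second case, where `p` divides one coordinate only -/
theorem second_case (hK : Module.finrank ℚ K = 2) {σ τ : K →ₐ[ℚ] ℂ} {s : K ≃ₐ[ℚ] K}
    (hE : Emb K σ τ s) (hτ : ∀ x, τ x = conj (σ x)) {p : ℕ} (hp : p.Prime) (h5 : 5 ≤ p)
    (hh : ¬ p ∣ classNumber K) (hU : ∀ v : FinitePlace K, v (p : K) < 1 → v (p : K) * nrm v = 1)
    (t : Fin 3 → K) (ht : ∀ i, t i ≠ 0) (hF : (t 0) ^ p + (t 1) ^ p + (t 2) ^ p = 0)
    (i : Fin 3) (v : FinitePlace K) (hvp : v (p : K) < 1)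
    (hlt : v (Sm t i) < mx v (t 0) (t 1) (t 2))
    (hone : ∀ (w : FinitePlace K) k, w (Sm t k) < mx w (t 0) (t 1) (t 2) → w (p : K) < 1 → k = i) :
    (p : ℝ) ^ (2 * p - 1) * v (Sm t i) ≤ mx v (t 0) (t 1) (t 2) := by
  have hodd : Odd p := hp.odd_of_ne_two (by omega)
  have hFi := fermat_cyc t hF
  have hS : ∀ i, Sm t i ≠ 0 := fun i => add_ne_zero_of_fermat hodd (ht i) (hFi i)
  have hN := one_lt_nrm' v
  have hm : ∀ q : ℕ, q.Prime → q ∣ p → Module.finrank ℚ K + 1 < q := by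
    intro q hq hqp
    rw [hK, (Nat.prime_dvd_prime_iff_eq hq hp).1 hqp]
    omega
  have hlt' : v (t (i + 1) + t (i + 2)) < mx v (t (i + 1)) (t (i + 2)) (t i) := by
    rw [mx_cyc]
    exact hlt
  obtain ⟨h1, h2, h3, h4, h5'⟩ := core v (by omega) hm (ht (i + 2)) (hFi i) hlt'
  rw [mx_cyc] at h2
  set m := mx v (t 0) (t 1) (t 2) with hmdef
  have hm0 : 0 < m := (FinitePlace.pos_iff.mpr (ht 0)).trans_le (le_mx1 v _ _ _)
  have hvpN : v (p : K) = ((nrm v : ℕ) : ℝ)⁻¹ := eq_inv_of_mul_eq_one_left (hU v hvp)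
  have hv2 : v (2 : K) = 1 := by
    refine le_antisymm (by exact_mod_cast natCast_le_one v 2) (not_lt.1 fun h6 => ?_)
    exact hvp.ne (odd_one v h6 hodd)
  -- the root
  have hk : ∀ k, k ≠ i → ∀ w : FinitePlace K,
      ∃ j : ℕ, w (Sm t k) * ((nrm w : ℝ) ^ j) ^ p = mx w (t 0) (t 1) (t 2) := by
    intro k hki w
    apply lc_any hK hp h5 t ht hF k w
    intro h6
    rcases (natCast_le_one w p).lt_or_eq with h7 | h7
    · exact absurd (hone w k h6 h7) hki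
    · exact h7
  have hi1 : i + 1 ≠ i := (n1 i).symm
  have hi2 : i + 2 ≠ i := (n2 i).symm
  obtain ⟨g, hg0, hg⟩ := root_of_values hK hE hτ hp h5 hh (div_ne_zero (hS (i + 1)) (hS (i + 2)))
    fun w => by
      obtain ⟨a, ha⟩ := hk _ hi1 w
      obtain ⟨b, hb⟩ := hk _ hi2 w
      exact ⟨_, ratio_zpow (hS (i + 1)) (hS (i + 2)) ha hb⟩
  -- at `v`
  have hfull : ∀ k, k ≠ i → v (Sm t k) = m := by
    intro k hki
    refine le_antisymm ?_ (not_lt.1 fun h6 => hki (hone v k h6 hvp))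
    have h6 : ∀ l, v (t l) ≤ m := by
      intro l
      fin_cases l
      · exact le_mx1 v _ _ _
      · exact le_mx2 v _ _ _
      · exact le_mx3 v _ _ _
    exact v_add_le v (h6 _) (h6 _)
  have hvg : v g ^ p = 1 := by
    rw [← map_pow, ← hg, map_div₀, hfull _ hi1, hfull _ hi2, div_self hm0.ne']
  have hvg1 : v g = 1 := (pow_eq_one_iff_of_nonneg (apply_nonneg _ _) hp.ne_zero).1 hvg
  set θ := v (t i / t (i + 2)) with hθ
  have hθ0 : 0 < θ := FinitePlace.pos_iff.mpr (div_ne_zero (ht _) (ht _))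
  have hθN : θ ≤ ((nrm v : ℕ) : ℝ)⁻¹ := le_inv_nrm v h3
  have hvt2 : v (t (i + 2)) = m := h2.symm
  have hti : v (t i) = θ * m := by
    rw [hθ, map_div₀, hvt2]
    field_simp
  have hSi : v (Sm t i) * v (p : K) = θ ^ p * m := by
    have h6 : v ((t (i + 1) + t (i + 2)) / t (i + 2)) * m = v (Sm t i) := by
      rw [map_div₀, hvt2]
      unfold Sm
      field_simp
    rw [← h6, h5']
    ring
  have hSlt : v (Sm t i) < v (t i) := by
    have h6 : v (Sm t i) = θ ^ p * m * nrm v := by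
      rw [← hSi, mul_assoc, hU v hvp, mul_one]
    have h7 : θ ^ p * nrm v < θ := by
      obtain ⟨q, hq⟩ : ∃ q, p = q + 3 := ⟨p - 3, by omega⟩
      have h8 : θ ^ p = θ ^ q * θ * θ * θ := by rw [hq]; ring
      have h9 : θ ^ q ≤ 1 := pow_le_one₀ hθ0.le h3.le
      have h10 : θ * nrm v ≤ 1 := by
        calc θ * nrm v ≤ ((nrm v : ℕ) : ℝ)⁻¹ * nrm v := by gcongr
          _ = 1 := by field_simp
      calc θ ^ p * nrm v = θ ^ q * (θ * nrm v) * θ * θ := by rw [h8]; ring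
        _ ≤ 1 * 1 * θ * θ := by gcongr
        _ = θ * θ := by ring
        _ < 1 * θ := by gcongr
        _ = θ := one_mul _
    rw [h6, hti]
    calc θ ^ p * m * nrm v = (θ ^ p * nrm v) * m := by ring
      _ < θ * m := by gcongr
  have hsum : v (g ^ p + 1) = θ := by
    have e : g ^ p + 1 = (Sm t i + 2 * t i) / Sm t (i + 2) := by
      rw [← hg]
      have := hS (i + 2)
      field_simp
      unfold Sm
      rw [f11, f12, f21, f22]
      ring
    have h6 : v (2 * t i) = v (t i) := by rw [map_mul, hv2, one_mul]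
    have h7 : v (Sm t i + 2 * t i) = v (t i) := by
      rw [← h6, add_comm]
      exact add_eq_of_lt v (by rw [h6]; exact hSlt)
    rw [e, map_div₀, h7, hfull _ hi2, hti]
    field_simp
  have hg1 : v (g + 1) < 1 := by
    have h6 := frob v hp hvp (a := g) (b := 1) (c := 0) (g := 1) one_ne_zero
      (by rw [hvg1, map_one]) le_rfl (by rw [map_zero, map_one]; exact zero_le_one)
    rw [map_one, one_pow, one_pow, zero_pow hp.ne_zero, add_zero, add_zero] at h6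
    have h7 : v ((g + 1) ^ p) < 1 := by
      have e : (g + 1) ^ p = ((g + 1) ^ p - (g ^ p + 1)) + (g ^ p + 1) := by ring
      rw [e]
      apply v_add_lt v h6
      rw [hsum]
      exact h3
    rw [map_pow] at h7
    exact (pow_lt_one_iff_of_nonneg (apply_nonneg _ _) hp.ne_zero).1 h7
  have hzN : v (g + 1) ≤ ((nrm v : ℕ) : ℝ)⁻¹ := le_inv_nrm v hg1
  have hθ2 : θ ≤ (((nrm v : ℕ) : ℝ)⁻¹) ^ 2 := by
    have hz : v (-(g + 1)) < 1 := by rw [map_neg_eq_map]; exact hg1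
    have hinv1 : ((nrm v : ℕ) : ℝ)⁻¹ < 1 := inv_lt_one_of_one_lt₀ hN
    have hinv0 : 0 < ((nrm v : ℕ) : ℝ)⁻¹ := by positivity
    have h6 := one_add_pow v hp hz (by
      rw [map_neg_eq_map, hvpN]
      calc v (g + 1) ^ (p - 1) ≤ (((nrm v : ℕ) : ℝ)⁻¹) ^ (p - 1) := by gcongr
        _ < (((nrm v : ℕ) : ℝ)⁻¹) ^ 1 := pow_lt_pow_right_of_lt_one₀ hinv0 hinv1 (by omega)
        _ = _ := pow_one _)
    have e : (1 + -(g + 1)) ^ p - 1 = -(g ^ p + 1) := by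
      have : (1 + -(g + 1) : K) = -g := by ring
      rw [this, hodd.neg_pow]
      ring
    rw [e, map_neg_eq_map, map_neg_eq_map, hsum] at h6
    rw [h6, hvpN]
    calc ((nrm v : ℕ) : ℝ)⁻¹ * v (g + 1) ≤ ((nrm v : ℕ) : ℝ)⁻¹ * ((nrm v : ℕ) : ℝ)⁻¹ := by gcongr
      _ = _ := by ring
  -- the size of the sum
  have hpN : (p : ℝ) ≤ nrm v := by exact_mod_cast nrm_ge v hp hvp
  have h6 : v (Sm t i) = θ ^ p * m * nrm v := by
    rw [← hSi, mul_assoc, hU v hvp, mul_one]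
  rw [h6]
  have h7 : (p : ℝ) ^ (2 * p - 1) * (θ ^ p * nrm v) ≤ 1 := by
    have h8 : θ ^ p * nrm v ≤ ((nrm v : ℝ) ^ (2 * p - 1))⁻¹ := by
      have h9 : θ ^ p ≤ ((((nrm v : ℕ) : ℝ)⁻¹) ^ 2) ^ p := by gcongr
      have h10 : ((((nrm v : ℕ) : ℝ)⁻¹) ^ 2) ^ p * nrm v = ((nrm v : ℝ) ^ (2 * p - 1))⁻¹ := by
        rw [← pow_mul]
        obtain ⟨q, hq⟩ : ∃ q, 2 * p = q + 1 := ⟨2 * p - 1, by omega⟩
        have hq' : 2 * p - 1 = q := by omega
        rw [hq', hq, pow_succ, inv_pow, mul_assoc, inv_mul_cancel₀ (by positivity), mul_one]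
      calc θ ^ p * nrm v ≤ ((((nrm v : ℕ) : ℝ)⁻¹) ^ 2) ^ p * nrm v := by gcongr
        _ = _ := h10
    have hp0 : (0 : ℝ) < p := by exact_mod_cast hp.pos
    calc (p : ℝ) ^ (2 * p - 1) * (θ ^ p * nrm v) ≤
          (nrm v : ℝ) ^ (2 * p - 1) * ((nrm v : ℝ) ^ (2 * p - 1))⁻¹ := by gcongr
      _ = 1 := mul_inv_cancel₀ (by positivity)
  calc (p : ℝ) ^ (2 * p - 1) * (θ ^ p * m * nrm v) = ((p : ℝ) ^ (2 * p - 1) * (θ ^ p * nrm v)) * m := by
        ring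
    _ ≤ 1 * m := by gcongr
    _ = m := one_mul _

/-- the second case in general -/
theorem second_gen (hK : Module.finrank ℚ K = 2) {p : ℕ} (hp : p.Prime) (h5 : 5 ≤ p)
    (hU : ∀ v : FinitePlace K, v (p : K) < 1 → v (p : K) * nrm v = 1)
    (t : Fin 3 → K) (ht : ∀ i, t i ≠ 0) (hF : (t 0) ^ p + (t 1) ^ p + (t 2) ^ p = 0)
    (i : Fin 3) (v : FinitePlace K) (hvp : v (p : K) < 1)
    (hlt : v (Sm t i) < mx v (t 0) (t 1) (t 2)) :
    v (t i) < mx v (t 0) (t 1) (t 2) ∧ v (t (i + 1)) = mx v (t 0) (t 1) (t 2) ∧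
      v (t (i + 2)) = mx v (t 0) (t 1) (t 2) ∧
      (p : ℝ) ^ (p - 1) * v (Sm t i) ≤ mx v (t 0) (t 1) (t 2) := by
  have hodd : Odd p := hp.odd_of_ne_two (by omega)
  have hFi := fermat_cyc t hF
  have hN := one_lt_nrm' v
  have hm : ∀ q : ℕ, q.Prime → q ∣ p → Module.finrank ℚ K + 1 < q := by
    intro q hq hqp
    rw [hK, (Nat.prime_dvd_prime_iff_eq hq hp).1 hqp]
    omega
  have hlt' : v (t (i + 1) + t (i + 2)) < mx v (t (i + 1)) (t (i + 2)) (t i) := by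
    rw [mx_cyc]
    exact hlt
  obtain ⟨h1, h2, h3, h4, h5'⟩ := core v (by omega) hm (ht (i + 2)) (hFi i) hlt'
  rw [mx_cyc] at h2
  set m := mx v (t 0) (t 1) (t 2) with hmdef
  have hm0 : 0 < m := (FinitePlace.pos_iff.mpr (ht 0)).trans_le (le_mx1 v _ _ _)
  set θ := v (t i / t (i + 2)) with hθ
  have hθ0 : 0 < θ := FinitePlace.pos_iff.mpr (div_ne_zero (ht _) (ht _))
  have hθN : θ ≤ ((nrm v : ℕ) : ℝ)⁻¹ := le_inv_nrm v h3
  have hvt2 : v (t (i + 2)) = m := h2.symm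
  have hti : v (t i) = θ * m := by
    rw [hθ, map_div₀, hvt2]
    field_simp
  have hSi : v (Sm t i) * v (p : K) = θ ^ p * m := by
    have h6 : v ((t (i + 1) + t (i + 2)) / t (i + 2)) * m = v (Sm t i) := by
      rw [map_div₀, hvt2]
      unfold Sm
      field_simp
    rw [← h6, h5']
    ring
  have h6 : v (Sm t i) = θ ^ p * m * nrm v := by
    rw [← hSi, mul_assoc, hU v hvp, mul_one]
  have hpN : (p : ℝ) ≤ nrm v := by exact_mod_cast nrm_ge v hp hvp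
  refine ⟨?_, by rw [h1, hvt2], hvt2, ?_⟩
  · rw [hti]
    calc θ * m < 1 * m := by gcongr
      _ = m := one_mul _
  rw [h6]
  have h7 : (p : ℝ) ^ (p - 1) * (θ ^ p * nrm v) ≤ 1 := by
    have h8 : θ ^ p * nrm v ≤ ((nrm v : ℝ) ^ (p - 1))⁻¹ := by
      have h9 : θ ^ p ≤ (((nrm v : ℕ) : ℝ)⁻¹) ^ p := by gcongr
      have h10 : (((nrm v : ℕ) : ℝ)⁻¹) ^ p * nrm v = ((nrm v : ℝ) ^ (p - 1))⁻¹ := by
        obtain ⟨q, hq⟩ : ∃ q, p = q + 1 := ⟨p - 1, by omega⟩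
        rw [hq, Nat.add_sub_cancel, pow_succ, inv_pow, mul_assoc, inv_mul_cancel₀ (by positivity),
          mul_one]
      calc θ ^ p * nrm v ≤ (((nrm v : ℕ) : ℝ)⁻¹) ^ p * nrm v := by gcongr
        _ = _ := h10
    have hp0 : (0 : ℝ) < p := by exact_mod_cast hp.pos
    calc (p : ℝ) ^ (p - 1) * (θ ^ p * nrm v) ≤
          (nrm v : ℝ) ^ (p - 1) * ((nrm v : ℝ) ^ (p - 1))⁻¹ := by gcongr
      _ = 1 := mul_inv_cancel₀ (by positivity)
  calc (p : ℝ) ^ (p - 1) * (θ ^ p * m * nrm v) = ((p : ℝ) ^ (p - 1) * (θ ^ p * nrm v)) * m := by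
        ring
    _ ≤ 1 * m := by gcongr
    _ = m := one_mul _

end Pool.Agent.H577.CP
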